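import Pool.Agent.H71.FX.Targets3

/-!
# Board fxm, row EM: more quantifiers (after the row of helper52 for relational formulas)
-/

set_option autoImplicit false

namespace Pool.Agent.H27.FX

open Pool.Agent.H71.FX Pool.Agent.H71.PF

/-- renaming of variables in terms -/
def renT (g : ℕ → ℕ) : Tm → Tm
  | .var x => .var (g x)
  | .app i ts => .app i (fun j => renT g (ts j))

/-- renaming of variables -/
def ren (g : ℕ → ℕ) : QF → QF
  | .rel i ts => .rel i (ts.map (renT g))
  | .eq s t => .eq (renT g s) (renT g t)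
  | .neg φ => .neg (ren g φ)
  | .and φ ψ => .and (ren g φ) (ren g ψ)

theorem renT_vars {g : ℕ → ℕ} {k k' : ℕ} (hg : ∀ i < k, g i < k') :
    ∀ t : Tm, t.Vars k → (renT g t).Vars k' := by
  intro t
  induction t with
  | var x => exact fun h => hg x h
  | app i ts ih => exact fun h j => ih j (h j)

theorem renT_voc {g : ℕ → ℕ} {F : ℕ → ℕ → Prop} : ∀ t : Tm, t.Voc F → (renT g t).Voc F := by
  intro t
  induction t with
  | var x => exact fun _ => trivial
  | app i ts ih => exact fun h => ⟨h.1, fun j => ih j (h.2 j)⟩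

theorem renT_val {α : Type} (f : ℕ → List α → α) (g : ℕ → ℕ) {k : ℕ} {v v' : ℕ → α}
    (hv : ∀ i < k, v i = v' (g i)) : ∀ t : Tm, t.Vars k → t.val f v = (renT g t).val f v' := by
  intro t
  induction t with
  | var x => exact fun h => hv x h
  | app i ts ih =>
    intro h
    change f i (List.ofFn fun j => (ts j).val f v) = f i (List.ofFn fun j => (renT g (ts j)).val f v')
    have e : (fun j => (ts j).val f v) = fun j => (renT g (ts j)).val f v' :=
      funext fun j => ih j (h j)
    rw [e]

theorem ren_vars {g : ℕ → ℕ} {k k' : ℕ} (hg : ∀ i < k, g i < k') :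
    ∀ φ : QF, φ.Vars k → (ren g φ).Vars k' := by
  intro φ
  induction φ with
  | rel i ts =>
    intro h t ht
    obtain ⟨y, hy, rfl⟩ := List.mem_map.1 ht
    exact renT_vars hg y (h y hy)
  | eq s t => exact fun h => ⟨renT_vars hg s h.1, renT_vars hg t h.2⟩
  | neg φ ih => exact fun h => ih h
  | and φ ψ ih1 ih2 => exact fun h => ⟨ih1 h.1, ih2 h.2⟩

theorem ren_voc {g : ℕ → ℕ} {F : ℕ → ℕ → Prop} {r : ℕ} : ∀ φ : QF, φ.Voc F r →
    (ren g φ).Voc F r := by
  intro φ
  induction φ with
  | rel i ts =>
    rintro ⟨h1, h2, h3⟩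
    refine ⟨?_, ?_, ?_⟩
    · rw [List.length_map]
      exact h1
    · rw [List.length_map]
      exact h2
    · intro t ht
      obtain ⟨y, hy, rfl⟩ := List.mem_map.1 ht
      exact renT_voc y (h3 y hy)
  | eq s t => exact fun h => ⟨renT_voc s h.1, renT_voc t h.2⟩
  | neg φ ih => exact fun h => ih h
  | and φ ψ ih1 ih2 => exact fun h => ⟨ih1 h.1, ih2 h.2⟩

theorem ren_sat {α : Type} (f : ℕ → List α → α) (R : ℕ → List α → Prop) (g : ℕ → ℕ) {k : ℕ}
    {v v' : ℕ → α} (hv : ∀ i < k, v i = v' (g i)) :
    ∀ φ : QF, φ.Vars k → (φ.Sat f R v ↔ (ren g φ).Sat f R v') := by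
  intro φ
  induction φ with
  | rel i ts =>
    intro h
    change R i (ts.map (Tm.val f v)) ↔ R i ((ts.map (renT g)).map (Tm.val f v'))
    rw [List.map_map]
    have e : ts.map (Tm.val f v) = ts.map (Tm.val f v' ∘ renT g) :=
      List.map_congr_left fun t ht => renT_val f g hv t (h t ht)
    rw [e]
  | eq s t =>
    intro h
    change s.val f v = t.val f v ↔ (renT g s).val f v' = (renT g t).val f v'
    rw [renT_val f g hv s h.1, renT_val f g hv t h.2]
  | neg φ ih => exact fun h => not_congr (ih h)
  | and φ ψ ih1 ih2 => exact fun h => and_congr (ih1 h.1) (ih2 h.2)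

theorem em_main {ρ π : List Bool} (hs : ρ.Sublist π) : ∀ (k k' : ℕ) (g : ℕ → ℕ),
    (∀ i < k, g i < k') → ∃ g' : ℕ → ℕ, (∀ i < k, g' i = g i) ∧
      (∀ i < k + ρ.length, g' i < k' + π.length) ∧
      ∀ (α : Type) [Nonempty α] (f : ℕ → List α → α) (R : ℕ → List α → Prop) (φ : QF),
        φ.Vars (k + ρ.length) → ∀ v v' : ℕ → α, (∀ i < k, v i = v' (g' i)) →
          (Pre f R φ ρ k v ↔ Pre f R (ren g' φ) π k' v') := by
  induction hs with
  | slnil =>
    intro k k' g hg
    exact ⟨g, fun _ _ => rfl, hg, fun α _ f R φ hφ v v' hv => ren_sat f R g hv φ hφ⟩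
  | @cons ρ π a _ ih =>
    intro k k' g hg
    obtain ⟨g', h1, h2, h3⟩ := ih k (k' + 1) g fun i hi => (hg i hi).trans (Nat.lt_succ_self _)
    refine ⟨g', h1, fun i hi => ?_, fun α _ f R φ hφ v v' hv => ?_⟩
    · have := h2 i hi
      rw [List.length_cons]
      omega
    · have key : ∀ x : α, Pre f R φ ρ k v ↔
          Pre f R (ren g' φ) π (k' + 1) (Function.update v' k' x) := by
        intro x
        refine h3 α f R φ hφ v (Function.update v' k' x) fun i hi => ?_
        rw [Function.update_of_ne, hv i hi]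
        rw [h1 i hi]
        exact (hg i hi).ne
      cases a with
      | true =>
        constructor
        · exact fun h x => (key x).1 h
        · exact fun h => (key (Classical.arbitrary α)).2 (h _)
      | false =>
        constructor
        · exact fun h => ⟨Classical.arbitrary α, (key _).1 h⟩
        · rintro ⟨x, hx⟩
          exact (key x).2 hx
  | @cons_cons ρ π a _ ih =>
    intro k k' g hg
    obtain ⟨g', h1, h2, h3⟩ := ih (k + 1) (k' + 1) (Function.update g k k') (by
      intro i hi
      by_cases hik : i = k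
      · rw [hik, Function.update_self]
        exact Nat.lt_succ_self _
      · rw [Function.update_of_ne hik]
        exact (hg i (by omega)).trans (Nat.lt_succ_self _))
    have h1' : ∀ i < k, g' i = g i := by
      intro i hi
      rw [h1 i (by omega), Function.update_of_ne (by omega)]
    have h1k : g' k = k' := by
      rw [h1 k (by omega), Function.update_self]
    refine ⟨g', h1', fun i hi => ?_, fun α _ f R φ hφ v v' hv => ?_⟩
    · rw [List.length_cons] at hi
      have := h2 i (by omega)
      rw [List.length_cons]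
      omega
    · have hφ' : φ.Vars (k + 1 + ρ.length) := by
        rw [List.length_cons] at hφ
        rw [show k + 1 + ρ.length = k + (ρ.length + 1) by omega]
        exact hφ
      have key : ∀ x : α, Pre f R φ ρ (k + 1) (Function.update v k x) ↔
          Pre f R (ren g' φ) π (k' + 1) (Function.update v' k' x) := by
        intro x
        refine h3 α f R φ hφ' _ _ fun i hi => ?_
        by_cases hik : i = k
        · rw [hik, h1k, Function.update_self, Function.update_self]
        · have hik' : i < k := by omega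
          rw [Function.update_of_ne hik, hv i hik', Function.update_of_ne]
          rw [h1' i hik']
          exact (hg i hik').ne
      cases a with
      | true => exact forall_congr' key
      | false => exact exists_congr key

theorem pf_EM : T_EM := by
  intro ρ π φ hs hφ
  obtain ⟨g', -, h2, h3⟩ := em_main hs 0 0 id (fun i hi => absurd hi (Nat.not_lt_zero _))
  rw [Nat.zero_add, Nat.zero_add] at h2
  refine ⟨ren g' φ, ren_vars h2 φ hφ, fun F r => ren_voc φ, ?_⟩
  ext n
  have hφ' : φ.Vars (0 + ρ.length) := by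
    rw [Nat.zero_add]
    exact hφ
  constructor
  · rintro ⟨hn, f, R, hR⟩
    have : Nonempty (Fin n) := ⟨⟨0, hn⟩⟩
    exact ⟨hn, f, R, fun v => (h3 (Fin n) f R φ hφ' v v
      fun i hi => absurd hi (Nat.not_lt_zero _)).2 (hR v)⟩
  · rintro ⟨hn, f, R, hR⟩
    have : Nonempty (Fin n) := ⟨⟨0, hn⟩⟩
    exact ⟨hn, f, R, fun v => (h3 (Fin n) f R φ hφ' v v
      fun i hi => absurd hi (Nat.not_lt_zero _)).1 (hR v)⟩

end Pool.Agent.H27.FX
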